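import Pool.Agent.Q275.RT.Stm

/-!
# Job ISO of project RT: isolated primes
-/

set_option autoImplicit false

namespace Pool.Agent.Q184.RT

open Finset Pool.Agent.Q275.RT

theorem iso : S_ISO := by
  intro W N
  -- the moduli
  let s : ℕ → ℕ := fun i => Nat.nth Nat.Prime (W + i)
  have hsp : ∀ i, (s i).Prime := fun i => Nat.prime_nth_prime _
  have hsgt : ∀ i, W + i < s i := by
    intro i
    have h1 : ∀ n : ℕ, n < Nat.nth Nat.Prime n := by
      intro n
      have := Nat.add_two_le_nth_prime n
      omega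
    exact h1 _
  have hinj : ∀ i j, i ≠ j → s i ≠ s j := by
    intro i j hij h
    have := Nat.nth_injective Nat.infinite_setOfPred_prime h
    omega
  let t : Finset ℕ := Icc 1 (2 * W)
  let a : ℕ → ℕ := fun i => if i ≤ W then s i - i else i - W
  have ha : ∀ i ∈ t, 0 < a i ∧ a i < s i := by
    intro i hi
    have hi' := Finset.mem_Icc.1 hi
    have := hsgt i
    simp only [a]
    split_ifs with h
    · omega
    · omega
  obtain ⟨k, hk⟩ := Nat.chineseRemainderOfFinset a s t (fun i _ => (hsp i).ne_zero)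
    (fun i _ j _ hij => (Nat.coprime_primes (hsp i) (hsp j)).2 (hinj i j hij))
  have hcop : Nat.Coprime k (∏ i ∈ t, s i) := by
    refine Nat.Coprime.prod_right fun i hi => ?_
    refine ((Nat.Prime.coprime_iff_not_dvd (hsp i)).2 fun hd => ?_).symm
    have h1 : a i ≡ 0 [MOD s i] := (hk i hi).symm.trans ((Nat.modEq_zero_iff_dvd).2 hd)
    have h2 := Nat.le_of_dvd (ha i hi).1 ((Nat.modEq_zero_iff_dvd).1 h1)
    have := (ha i hi).2
    omega
  obtain ⟨r, hr, hrp, hrk⟩ := Nat.forall_exists_prime_gt_and_modEq (N + W + ∑ i ∈ t, s i)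
    (Finset.prod_ne_zero_iff.2 fun i _ => (hsp i).ne_zero) hcop
  have hri : ∀ i ∈ t, r ≡ a i [MOD s i] := fun i hi =>
    (hrk.of_dvd (Finset.dvd_prod_of_mem s hi)).trans (hk i hi)
  have hbig : ∀ i ∈ t, s i + W < r := by
    intro i hi
    have := Finset.single_le_sum (f := s) (fun i _ => Nat.zero_le _) hi
    omega
  refine ⟨r, hrp, by omega, by omega, fun d hd0 hdW => ⟨fun hp => ?_, fun hp => ?_⟩⟩
  · have hi : d ∈ t := Finset.mem_Icc.2 ⟨hd0, by omega⟩
    have h1 := hri d hi
    have h2 : a d = s d - d := by simp only [a]; rw [if_pos hdW]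
    rw [h2] at h1
    have h3 : s d ∣ r + d := by
      rw [← Nat.modEq_zero_iff_dvd]
      have h4 := h1.add_right d
      have h5 : s d - d + d = s d := by have := hsgt d; omega
      rw [h5] at h4
      exact h4.trans (by simp [Nat.ModEq])
    have h6 := (Nat.prime_dvd_prime_iff_eq (hsp d) hp).1 h3
    have := hbig d hi
    omega
  · have hi : W + d ∈ t := Finset.mem_Icc.2 ⟨by omega, by omega⟩
    have h1 := hri (W + d) hi
    have h2 : a (W + d) = d := by simp only [a]; rw [if_neg (by omega)]; omega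
    rw [h2] at h1
    have hb := hbig (W + d) hi
    have h3 : s (W + d) ∣ r - d := (Nat.modEq_iff_dvd' (by omega)).1 h1.symm
    have h6 := (Nat.prime_dvd_prime_iff_eq (hsp (W + d)) hp).1 h3
    omega

end Pool.Agent.Q184.RT
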